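import Pool.Agent.H42.CS.Defs
import Pool.Agent.H16.LE.Img

/-!
# Bounded depth over partially symmetric formulas with counting

Propositional formulas are given by the nodes of a finite circuit with conjunctions and symmetric gates
`sym A S` (the number of true members of `S` is in `A`) of unbounded fan-in (`H42/CS/Defs`: `Lit`, `Gate`,
`Circuit`); the hypotheses are the instances over a universe `P` of finitely many first-order sentences
(`Ax`, `Ax.inst`). The rules are those of `H42/CS/Defs` with the addition rule `sum` for two sets.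

`Img C g a b` (`H16/LE/Img`): the formula below the node `b` is the image of the formula below the node `a`
under the permutation `g` of the points, up to the order of the members of the gates. `Small Γ b C a`: the
formula below `a` is fixed by the elements of a subgroup of index at most `b` of `Γ`. `Built Γ b C d a`: the
formula below `a` is obtained from variables and such formulas (of any depth, with any gates) by at most `d`
levels of conjunctions and negations. No symmetry of the circuit, of the lines or of the set of the lines is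
asked.
-/

set_option autoImplicit false

namespace Pool.Agent.H63.AC

open Pool.Agent.H42.CS (Ax Atom Lit Gate Circuit)
open Pool.Agent.H16.LE (Img)

/-- The rules. A line is a set `Λ` of signed nodes, read as the disjunction of its members; it follows in
one step from the lines in `Pr`. The hypotheses are the instances over `P` of the axioms in `T` (`hyp`). The
rules for the symmetric gates:
* `cover`: for every number `c ≤ |S|` the line has a member `sym A S`, `c ∈ A`, or `¬ sym A S`, `c ∉ A`;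
* `unit`: `¬ x, sym A {x}` if `1 ∈ A`, and `x, sym A {x}` if `0 ∈ A`;
* `sum`: from `sym A₁ S₁` and `sym A₂ S₂`, `S₁` and `S₂` disjoint: `sym A' (S₁ ∪ S₂)`, if `c₁ + c₂ ∈ A'` for
  all `c₁ ∈ A₁`, `c₂ ∈ A₂`;
* `dist` (distribution): `F` is a family of disjoint sets of size at most `J`, `B j X` is the node
  `sym {j} X`, and `u j` says that the number of `X ∈ F` with exactly `j` true members is in `A j`
  (`j ≤ J`); from all `u j`: `sym A' (⋃ F)`, if `∑ j * t j ∈ A'` for all `t j ∈ A j` with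
  `∑ t j = |F|`. -/
inductive Step {Rel : ℕ → Type} {P : Type} (T : Set (Ax Rel)) (C : Circuit Rel P)
    (Pr : Set (Set (Lit C.N))) : Set (Lit C.N) → Prop
  | hyp {Λ : Set (Lit C.N)} {A : Ax Rel} {v : Fin A.k → P} : A ∈ T →
      (∀ x ∈ A.inst v, ∃ a, C.gate a = .var x.1 ∧ ⟨a, x.2⟩ ∈ Λ) → Step T C Pr Λ
  | ident {Λ : Set (Lit C.N)} {a b : C.N} : C.gate a = C.gate b → ⟨a, true⟩ ∈ Λ →
      ⟨b, false⟩ ∈ Λ → Step T C Pr Λ
  | weak {Λ Δ : Set (Lit C.N)} : Δ ∈ Pr → Δ ⊆ Λ → Step T C Pr Λ
  | cut {Λ : Set (Lit C.N)} {a : C.N} : insert ⟨a, true⟩ Λ ∈ Pr → insert ⟨a, false⟩ Λ ∈ Pr →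
      Step T C Pr Λ
  | andI {Λ S : Set (Lit C.N)} {a : C.N} : C.gate a = .and S → ⟨a, true⟩ ∈ Λ →
      (∀ x ∈ S, insert x Λ ∈ Pr) → Step T C Pr Λ
  | andE {Λ S : Set (Lit C.N)} {a : C.N} : C.gate a = .and S → ⟨a, false⟩ ∈ Λ →
      Λ ∪ Lit.neg '' S ∈ Pr → Step T C Pr Λ
  | cover {Λ S : Set (Lit C.N)} : (∀ c ≤ S.ncard, ∃ (a : C.N) (A : Set ℕ) (b : Bool),
      C.gate a = .sym A S ∧ (c ∈ A ↔ b = true) ∧ ⟨a, b⟩ ∈ Λ) → Step T C Pr Λ
  | unit {Λ : Set (Lit C.N)} {a : C.N} {A : Set ℕ} {x : Lit C.N} : C.gate a = .sym A {x} →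
      ⟨a, true⟩ ∈ Λ → (1 ∈ A ∧ x.neg ∈ Λ) ∨ (0 ∈ A ∧ x ∈ Λ) → Step T C Pr Λ
  | sum {Λ S₁ S₂ : Set (Lit C.N)} {a b₁ b₂ : C.N} {A₁ A₂ A' : Set ℕ} :
      C.gate b₁ = .sym A₁ S₁ → C.gate b₂ = .sym A₂ S₂ → Disjoint S₁ S₂ →
      C.gate a = .sym A' (S₁ ∪ S₂) → (∀ c₁ ∈ A₁, ∀ c₂ ∈ A₂, c₁ + c₂ ∈ A') →
      ⟨b₁, false⟩ ∈ Λ → ⟨b₂, false⟩ ∈ Λ → ⟨a, true⟩ ∈ Λ → Step T C Pr Λ
  | dist {Λ : Set (Lit C.N)} {a : C.N} {F : Set (Set (Lit C.N))} {J : ℕ}
      {B : ℕ → Set (Lit C.N) → C.N} {u : ℕ → C.N} {A : ℕ → Set ℕ} {A' : Set ℕ} :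
      F.PairwiseDisjoint id → (∀ X ∈ F, X.ncard ≤ J) →
      (∀ j ≤ J, ∀ X ∈ F, C.gate (B j X) = .sym {j} X) →
      (∀ j ≤ J, C.gate (u j) = .sym (A j) ((fun X => ⟨B j X, true⟩) '' F)) →
      C.gate a = .sym A' (⋃₀ F) →
      (∀ t : ℕ → ℕ, (∀ j ≤ J, t j ∈ A j) → ∑ j ∈ Finset.range (J + 1), t j = F.ncard →
        ∑ j ∈ Finset.range (J + 1), j * t j ∈ A') →
      (∀ j ≤ J, ⟨u j, false⟩ ∈ Λ) → ⟨a, true⟩ ∈ Λ → Step T C Pr Λ

/-- A refutation of the axioms in `T` over the universe `P`: a circuit and a set of lines, each of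
which follows in one step from earlier ones; the empty line is among them. -/
structure Refutation {Rel : ℕ → Type} (T : Set (Ax Rel)) (P : Type) where
  /-- the circuit -/
  C : Circuit Rel P
  /-- the lines -/
  lines : Set (Set (Lit C.N))
  /-- the order of the lines -/
  order : Set (Lit C.N) → ℕ
  step : ∀ Λ ∈ lines, Step T C {Δ | Δ ∈ lines ∧ order Δ < order Λ} Λ
  empty_mem : ∅ ∈ lines

/-- The size of a refutation: the number of nodes of the circuit plus the number of lines. -/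
noncomputable def Refutation.size {Rel : ℕ → Type} {T : Set (Ax Rel)} {P : Type}
    (R : Refutation T P) : ℕ :=
  Nat.card R.C.N + R.lines.ncard

/-- The formula below the node `a` is fixed by all elements of a subgroup of index at most `b` of the
group `Γ` of permutations of the points. -/
def Small {Rel : ℕ → Type} {P : Type} (Γ : Subgroup (Equiv.Perm P)) (b : ℕ) (C : Circuit Rel P)
    (a : C.N) : Prop :=
  ∃ H : Subgroup (Equiv.Perm P), H ≤ Γ ∧ H.relIndex Γ ≤ b ∧ ∀ g ∈ H, Img C g a a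

/-- The formula below the node `a` is built in depth `d` from variables and from formulas each of which
is fixed by a subgroup of index at most `b` of `Γ`. -/
def Built {Rel : ℕ → Type} {P : Type} (Γ : Subgroup (Equiv.Perm P)) (b : ℕ) (C : Circuit Rel P) :
    ℕ → C.N → Prop
  | 0, a => (∃ v, C.gate a = .var v) ∨ Small Γ b C a
  | d + 1, a => Built Γ b C d a ∨ ∃ S, C.gate a = .and S ∧ ∀ x ∈ S, Built Γ b C d x.node

end Pool.Agent.H63.AC
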