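import Pool.Agent.H63.AC.Lift

/-!
# Levels and iterated switching (abstract circuits)

Port of `H63/YQ/Climb`; new: the values of the nodes of the first level are the old values.
-/

set_option autoImplicit false
set_option linter.unusedSectionVars false

namespace Pool.Agent.H63.AC

open Pool.Agent.H42.CS (Lit)
open Finset
open Pool.Agent.H63.YL (PM dm)

/-- the levels: conjunctions of nodes of the previous level are added -/
def BB {N : Type} (gate : N → Option (Set (Lit N))) (B0 : Set N) : ℕ → Set N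
  | 0 => B0
  | i + 1 => BB gate B0 i ∪ {a | ∃ S, gate a = some S ∧ ∀ x ∈ S, x.node ∈ BB gate B0 i}

theorem BB_succ {N : Type} (gate : N → Option (Set (Lit N))) (B0 : Set N) (i : ℕ) :
    BB gate B0 i ⊆ BB gate B0 (i + 1) := Set.subset_union_left

theorem BB_mono {N : Type} (gate : N → Option (Set (Lit N))) (B0 : Set N) {i j : ℕ} (h : i ≤ j) :
    BB gate B0 i ⊆ BB gate B0 j := by
  induction j, h using Nat.le_induction with
  | base => exact subset_rfl
  | succ j _ ih => exact ih.trans (BB_succ gate B0 j)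

theorem BB_new {N : Type} (gate : N → Option (Set (Lit N))) (B0 : Set N) (i : ℕ) :
    ∀ a ∈ BB gate B0 (i + 1), a ∉ BB gate B0 i →
    ∃ S, gate a = some S ∧ ∀ x ∈ S, x.node ∈ BB gate B0 i := by
  rintro a (h | h) h'
  · exact absurd h h'
  · exact h

/-- the exponents -/
def cc (d σ : ℕ) : ℕ := (σ + 1) * 256 ^ (d + 1)

theorem cc_succ (d σ : ℕ) :
    4 * (cc d (2 * σ + 2) + 8 * (2 * σ + 2) + 8) + 1 + (128 * σ + 1) ≤ cc (d + 1) σ := by
  unfold cc
  obtain ⟨K, hK⟩ : ∃ K, K = 256 ^ (d + 1) := ⟨_, rfl⟩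
  have hK1 : 1 ≤ K := by rw [hK]; exact Nat.one_le_pow _ _ (by norm_num)
  have e : 256 ^ (d + 1 + 1) = K * 256 := by rw [hK, pow_succ]
  rw [e, ← hK]
  have h1 : σ ≤ σ * K := Nat.le_mul_of_pos_right _ hK1
  nlinarith

/-- **Iterated switching.** -/
theorem climb {N : Type} [Finite N] (gate : N → Option (Set (Lit N))) (B0 : Set N) :
    ∀ d σ : ℕ, 1 ≤ σ → ∀ (n t : ℕ)
    (i m : ℕ) (f : Finset (Fin (n + 1) × Fin n))
    (R : Finset (Fin (n + 1) × Fin n) → N → Bool → Prop),
    1 ≤ t → n < 2 ^ t → Nat.card N < 2 ^ t → Ev gate (BB gate B0 i) f (σ * t) n R →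
    f.card + m = n → (cc d σ * t) ^ cc d σ ≤ m →
    ∃ (f' : Finset (Fin (n + 1) × Fin n)) (s' : ℕ)
      (R' : Finset (Fin (n + 1) × Fin n) → N → Bool → Prop),
      Ev gate (BB gate B0 (i + d)) f' s' n R' ∧ f ⊆ f' ∧ σ * t ≤ s' ∧
      ∀ a ∈ BB gate B0 i, ∀ α v, R α a v → PM α → f' ⊆ α → R' α a v := by
  intro d
  induction d with
  | zero =>
    intro σ _ n t i m f R _ _ _ E _ _
    exact ⟨f, σ * t, R, E, subset_rfl, le_rfl, fun a _ α v h _ _ => h⟩
  | succ d ih =>
    intro σ hσ n t i m f R ht hn hS E hfm hm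
    have hcc := cc_succ d σ
    obtain ⟨c', hc⟩ : ∃ c', c' = cc d (2 * σ + 2) := ⟨_, rfl⟩
    have hc' := ih (2 * σ + 2) (by omega)
    rw [← hc] at hc' hcc
    obtain ⟨c, hcd⟩ : ∃ c, c = cc (d + 1) σ := ⟨_, rfl⟩
    rw [← hcd] at hm hcc
    obtain ⟨C, hC⟩ : ∃ C, C = c' + 8 * (2 * σ + 2) + 8 := ⟨_, rfl⟩
    obtain ⟨l, hl⟩ : ∃ l, l = (C * t) ^ C := ⟨_, rfl⟩
    have hCt : 1 ≤ C * t := Nat.mul_pos (by omega) ht
    have hlC : C * t ≤ l := by
      calc C * t = (C * t) ^ 1 := (pow_one _).symm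
        _ ≤ (C * t) ^ C := Nat.pow_le_pow_right hCt (by omega)
        _ = l := hl.symm
    have hl1 : 1 ≤ l := hCt.trans hlC
    -- the size of `l`
    have hlm : (128 * σ + 1) * t * l ^ 4 ≤ m := by
      refine le_trans ?_ hm
      have h1 : 1 ≤ c * t := Nat.mul_pos (by omega) ht
      calc (128 * σ + 1) * t * l ^ 4 = (128 * σ + 1) * t * (C * t) ^ (4 * C) := by
            rw [hl, ← pow_mul, mul_comm C 4]
        _ ≤ (c * t) * (c * t) ^ (4 * C) := by
            refine Nat.mul_le_mul (Nat.mul_le_mul_right t (by omega)) ?_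
            exact Nat.pow_le_pow_left (Nat.mul_le_mul_right t (by omega)) _
        _ = (c * t) ^ (4 * C + 1) := by rw [pow_succ]; ring
        _ ≤ (c * t) ^ c := Nat.pow_le_pow_right h1 (by omega)
    have hl4 : l ≤ l ^ 4 := by
      calc l = l ^ 1 := (pow_one _).symm
        _ ≤ l ^ 4 := Nat.pow_le_pow_right hl1 (by omega)
    have hlm' : l ≤ m := by
      refine hl4.trans (le_trans ?_ hlm)
      exact Nat.le_mul_of_pos_left _ (Nat.mul_pos (by omega) ht)
    have hcardP : Fintype.card (Fin (n + 1)) = n + 1 := Fintype.card_fin _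
    have hcardH : Fintype.card (Fin n) = n := Fintype.card_fin _
    have hstep := lift (gate := gate) (B := BB gate B0 i) (B' := BB gate B0 (i + 1)) (f := f)
      (s := σ * t) (l := l) (d := 2 * t) (R := R) (by rw [hcardH]; exact E) (Nat.mul_pos hσ ht)
      (BB_succ gate B0 i) (BB_new gate B0 i) (by rw [hcardH, hcardP])
      (by rw [hcardH, hcardP]; omega)
      (by rw [hcardH]; omega)
      (by
        rw [hcardH, hcardP]
        have e1 : n + 1 - (n - l) = l + 1 := by omega
        have e2 : n - (n - l) = l := by omega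
        have e3 : n - l + 1 - f.card = m - l + 1 := by omega
        rw [e1, e2, e3]
        have e4 : (l + 1) * l * (8 * (σ * t) * (l + 1) ^ 2) ≤ 128 * σ * t * l ^ 4 := by
          have e5 : l + 1 ≤ 2 * l := by omega
          calc (l + 1) * l * (8 * (σ * t) * (l + 1) ^ 2)
              ≤ (2 * l) * (2 * l) * (8 * (σ * t) * (2 * l) ^ 2) := by
                refine Nat.mul_le_mul (Nat.mul_le_mul e5 (by omega)) ?_
                exact Nat.mul_le_mul_left _ (Nat.pow_le_pow_left e5 2)
            _ = 128 * σ * t * l ^ 4 := by ring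
        have e6 : 128 * σ * t * l ^ 4 + l ≤ m := by
          calc 128 * σ * t * l ^ 4 + l ≤ 128 * σ * t * l ^ 4 + t * l ^ 4 :=
                Nat.add_le_add_left (hl4.trans (Nat.le_mul_of_pos_left _ ht)) _
            _ = (128 * σ + 1) * t * l ^ 4 := by ring
            _ ≤ m := hlm
        omega)
      (by
        calc Nat.card N * l < 2 ^ t * 2 ^ t := by
              refine Nat.mul_lt_mul_of_lt_of_le hS (by omega) (by positivity)
          _ = 2 ^ (2 * t) := by rw [← pow_add]; congr 1; omega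
          _ ≤ 2 ^ (2 * t + 1) := Nat.pow_le_pow_right (by omega) (by omega))
      (by
        refine le_trans ?_ hlC
        rw [hC]
        nlinarith)
    obtain ⟨f', R', E', hf', hff', hR'⟩ := hstep
    rw [hcardH] at E' hf'
    have h1 : 2 * t + 2 * (σ * t) = (2 * σ + 2) * t := by ring
    rw [h1] at E'
    have hcl : (c' * t) ^ c' ≤ l := by
      rw [hl]
      calc (c' * t) ^ c' ≤ (C * t) ^ c' := Nat.pow_le_pow_left (Nat.mul_le_mul_right t (by omega)) _
        _ ≤ (C * t) ^ C := Nat.pow_le_pow_right hCt (by omega)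
    obtain ⟨f'', s'', R'', E'', hff'', hss, hR''⟩ := hc' n t (i + 1) l f' R' ht hn hS E'
      (by omega) hcl
    have h2 : i + (d + 1) = i + 1 + d := by omega
    rw [h2]
    refine ⟨f'', s'', R'', E'', hff'.trans hff'', le_trans ?_ hss, ?_⟩
    · exact Nat.mul_le_mul_right t (by omega)
    · intro a ha α v h3 h4 h5
      exact hR'' a (BB_succ gate B0 i ha) α v ((hR' a ha α v).2 ⟨h4, hff''.trans h5, h3⟩) h4 h5

end Pool.Agent.H63.AC
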