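import Pool.Agent.H42.CS.Defs
import Pool.Agent.H63.YP.Sw

/-!
# Evaluations by small matchings: abstract circuits

A circuit is given by the partial function `gate` on the nodes: `gate a = some S` means that `a` is the
conjunction of the signed nodes in `S`, `gate a = none` means that `a` is an atom (nothing is said about
atoms). `Ev gate B f s M R`: `R α a v` says that the node `a` has the value `v` at the matching `α` (which
contains the fixed matching `f`). Nodes in `B` are decided by at most `s` more pairs as long as there are at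
most `M` pairs. Port of `H63/YL/Sound` (without variables).
-/

set_option autoImplicit false
set_option linter.unusedSectionVars false

namespace Pool.Agent.H63.AC

open Pool.Agent.H42.CS (Lit)
open Pool.Agent.H63.YL (PM dm)

variable {P H : Type} [DecidableEq P] [DecidableEq H] {N : Type}

/-- evaluation of the nodes in `B` by matchings with at most `M` pairs -/
structure Ev (gate : N → Option (Set (Lit N))) (B : Set N) (f : Finset (P × H)) (s M : ℕ)
    (R : Finset (P × H) → N → Bool → Prop) : Prop where
  closed : ∀ a ∈ B, ∀ S, gate a = some S → ∀ x ∈ S, x.node ∈ B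
  pmf : PM f
  mono : ∀ {α β a v}, a ∈ B → R α a v → α ⊆ β → PM β → R β a v
  decide : ∀ {α a}, a ∈ B → PM α → f ⊆ α → α.card + s ≤ M →
    ∃ β v, α ⊆ β ∧ PM β ∧ β.card ≤ α.card + s ∧ R β a v
  cert : ∀ {α a v}, a ∈ B → R α a v → ∃ β, β ⊆ α ∧ f ⊆ β ∧ β.card ≤ f.card + s ∧ R β a v
  pm : ∀ {α a v}, R α a v → PM α ∧ f ⊆ α
  cons : ∀ {α a}, R α a true → R α a false → False
  and_true : ∀ {α a S x v}, a ∈ B → gate a = some S → x ∈ S → R α a true → R α x.node v →
    α.card + s ≤ M → v = x.pos
  and_false : ∀ {α a S}, a ∈ B → gate a = some S → R α a false → α.card + s ≤ M →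
    ∃ x ∈ S, ∃ β, α ⊆ β ∧ PM β ∧ β.card ≤ α.card + s ∧ R β x.node (!x.pos)
  ext : ∀ {α} (x : P ⊕ H), PM α → f ⊆ α → α.card + 1 ≤ M →
    ∃ β, α ⊆ β ∧ PM β ∧ β.card ≤ α.card + 1 ∧ x ∈ dm β
  room : f.card + 8 * s + 8 ≤ M

/-- nodes with the same label have the same value -/
theorem Ev.ident {gate : N → Option (Set (Lit N))} {B : Set N} {f : Finset (P × H)} {s M : ℕ}
    {R : Finset (P × H) → N → Bool → Prop} (E : Ev gate B f s M R) {a b : N} {S : Set (Lit N)}
    (ha : a ∈ B) (hb : b ∈ B) (hga : gate a = some S) (hgb : gate b = some S) {α : Finset (P × H)}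
    (h1 : R α a true) (h2 : R α b false) (hM : α.card + 2 * s ≤ M) : False := by
  obtain ⟨x, hx, β, h3, h4, h5, h6⟩ := E.and_false hb hgb h2 (by omega)
  have h7 := E.and_true ha hga hx (E.mono ha h1 h3 h4) h6 (by omega)
  simp at h7

end Pool.Agent.H63.AC
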