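import Pool.Agent.H63.AC.Climb

/-!
# Soundness (abstract calculus)

`AStep gate Base Pr Λ`: the line `Λ` (a set of signed nodes, read as a disjunction) follows in one step from
the lines in `Pr` by the rules for conjunctions, by weakening or cut, or contains a line `L` with `Base L`
(axioms about atoms). `core`: let the nodes in `B0` have an evaluation by matchings of `m + 1` pigeons and `m`
holes in which every `L` with `Base L` has a true member at some small extension of every small matching; then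
there is no short derivation of the empty line all of whose members are built in depth `d` from `B0`.
-/

set_option autoImplicit false
set_option linter.unusedSectionVars false

namespace Pool.Agent.H63.AC

open Pool.Agent.H42.CS (Lit)
open Pool.Agent.H63.YL (PM dm)

/-- One step of a derivation; `Base L`: `L` is an axiom. -/
inductive AStep {N : Type} (gate : N → Option (Set (Lit N))) (Base : Set (Lit N) → Prop)
    (Pr : Set (Set (Lit N))) : Set (Lit N) → Prop
  | base {Λ L : Set (Lit N)} : Base L → L ⊆ Λ → AStep gate Base Pr Λ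
  | ident {Λ S : Set (Lit N)} {a b : N} : gate a = some S → gate b = some S → ⟨a, true⟩ ∈ Λ →
      ⟨b, false⟩ ∈ Λ → AStep gate Base Pr Λ
  | weak {Λ Δ : Set (Lit N)} : Δ ∈ Pr → Δ ⊆ Λ → AStep gate Base Pr Λ
  | cut {Λ : Set (Lit N)} {a : N} : insert ⟨a, true⟩ Λ ∈ Pr → insert ⟨a, false⟩ Λ ∈ Pr →
      AStep gate Base Pr Λ
  | andI {Λ S : Set (Lit N)} {a : N} : gate a = some S → ⟨a, true⟩ ∈ Λ →
      (∀ x ∈ S, insert x Λ ∈ Pr) → AStep gate Base Pr Λ
  | andE {Λ S : Set (Lit N)} {a : N} : gate a = some S → ⟨a, false⟩ ∈ Λ →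
      Λ ∪ Lit.neg '' S ∈ Pr → AStep gate Base Pr Λ

/-- The circuit with the lines: a line is the conjunction of the negations of its members. -/
def gX {N : Type} (gate : N → Option (Set (Lit N))) (lines : Set (Set (Lit N))) :
    N ⊕ lines → Option (Set (Lit (N ⊕ lines)))
  | .inl a => (gate a).map fun S => Lit.map Sum.inl '' S
  | .inr Λ => some ((fun x : Lit N => (⟨Sum.inl x.node, !x.pos⟩ : Lit (N ⊕ lines))) '' Λ.1)

section

variable {N : Type} {gate : N → Option (Set (Lit N))} {lines : Set (Set (Lit N))}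

theorem gX_inl {a : N} {S : Set (Lit N)} (h : gate a = some S) :
    gX gate lines (.inl a) = some (Lit.map Sum.inl '' S) := by
  show (gate a).map _ = _
  rw [h]
  rfl

theorem gX_inl' {a : N} {S' : Set (Lit (N ⊕ lines))} (h : gX gate lines (.inl a) = some S') :
    ∃ S, gate a = some S ∧ S' = Lit.map Sum.inl '' S := by
  change (gate a).map _ = some S' at h
  rcases hg : gate a with _ | S
  · rw [hg] at h; cases h
  · rw [hg] at h
    injection h with h
    exact ⟨S, rfl, h.symm⟩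

theorem BB_inl (B0 : Set N) (i : ℕ) : ∀ a ∈ BB gate B0 i,
    (Sum.inl a : N ⊕ lines) ∈ BB (gX gate lines) (Sum.inl '' B0) i := by
  induction i with
  | zero => intro a ha; exact ⟨a, ha, rfl⟩
  | succ i ih =>
    rintro a (ha | ⟨S, hS, h⟩)
    · exact Or.inl (ih a ha)
    · refine Or.inr ⟨_, gX_inl hS, ?_⟩
      rintro _ ⟨x, hx, rfl⟩
      exact ih x.node (h x hx)

theorem BB_inr (B0 : Set N) (i : ℕ) (Λ : lines) (h : ∀ x ∈ Λ.1, x.node ∈ BB gate B0 i) :
    (Sum.inr Λ : N ⊕ lines) ∈ BB (gX gate lines) (Sum.inl '' B0) (i + 1) := by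
  refine Or.inr ⟨_, rfl, ?_⟩
  rintro _ ⟨x, hx, rfl⟩
  exact BB_inl B0 i x.node (h x hx)

end

section

variable {P H : Type} [DecidableEq P] [DecidableEq H] {N : Type}
  {gate : N → Option (Set (Lit N))} {lines : Set (Set (Lit N))}

/-- The values of the nodes of the circuit with the lines. -/
def RX (R : Finset (P × H) → N → Bool → Prop) (α : Finset (P × H)) (y : N ⊕ lines) (v : Bool) : Prop :=
  ∃ a, y = .inl a ∧ R α a v

theorem Ev.inl {B0 : Set N} {f : Finset (P × H)} {s M : ℕ} {R : Finset (P × H) → N → Bool → Prop}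
    (E : Ev gate B0 f s M R) : Ev (gX gate lines) (Sum.inl '' B0) f s M (RX (lines := lines) R) := by
  refine ⟨?_, E.pmf, ?_, ?_, ?_, ?_, ?_, ?_, ?_, E.ext, E.room⟩
  · rintro _ ⟨a, ha, rfl⟩ S' hS' x' hx'
    obtain ⟨S, hS, rfl⟩ := gX_inl' hS'
    obtain ⟨x, hx, rfl⟩ := hx'
    exact ⟨x.node, E.closed a ha S hS x hx, rfl⟩
  · rintro α β _ v ⟨a, ha, rfl⟩ ⟨a', h1, h2⟩ h3 h4
    obtain rfl := Sum.inl_injective h1
    exact ⟨a, rfl, E.mono ha h2 h3 h4⟩
  · rintro α _ ⟨a, ha, rfl⟩ h1 h2 h3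
    obtain ⟨β, v, h4, h5, h6, h7⟩ := E.decide ha h1 h2 h3
    exact ⟨β, v, h4, h5, h6, a, rfl, h7⟩
  · rintro α _ v ⟨a, ha, rfl⟩ ⟨a', h1, h2⟩
    obtain rfl := Sum.inl_injective h1
    obtain ⟨β, h4, h5, h6, h7⟩ := E.cert ha h2
    exact ⟨β, h4, h5, h6, a, rfl, h7⟩
  · rintro α _ v ⟨a, rfl, h⟩
    exact E.pm h
  · rintro α _ ⟨a, rfl, h⟩ ⟨a', h1, h2⟩
    obtain rfl := Sum.inl_injective h1
    exact E.cons h h2
  · rintro α _ S' x' v ⟨a, ha, rfl⟩ hS' hx' ⟨a', h1, h2⟩ ⟨a'', h3, h4⟩ hM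
    obtain rfl := Sum.inl_injective h1
    obtain ⟨S, hS, rfl⟩ := gX_inl' hS'
    obtain ⟨x, hx, rfl⟩ := hx'
    obtain rfl := Sum.inl_injective h3
    exact E.and_true ha hS hx h2 h4 hM
  · rintro α _ S' ⟨a, ha, rfl⟩ hS' ⟨a', h1, h2⟩ hM
    obtain rfl := Sum.inl_injective h1
    obtain ⟨S, hS, rfl⟩ := gX_inl' hS'
    obtain ⟨x, hx, β, h3, h4, h5, h6⟩ := E.and_false ha hS h2 hM
    exact ⟨Lit.map Sum.inl x, ⟨x, hx, rfl⟩, β, h3, h4, h5, x.node, rfl, h6⟩

end

section

variable {P H : Type} [DecidableEq P] [DecidableEq H] {N : Type}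
  {gate : N → Option (Set (Lit N))} {lines : Set (Set (Lit N))}
  {B : Set (N ⊕ lines)} {f : Finset (P × H)} {s M : ℕ} {V : Finset (P × H) → N ⊕ lines → Bool → Prop}

private theorem line_true (E : Ev (gX gate lines) B f s M V) {Λ : lines}
    (hΛ : (Sum.inr Λ : N ⊕ lines) ∈ B) {α : Finset (P × H)} (h : V α (Sum.inr Λ) true)
    {x : Lit N} (hx : x ∈ Λ.1) {v : Bool} (hv : V α (Sum.inl x.node) v)
    (hM : α.card + s ≤ M) : v = !x.pos :=
  E.and_true hΛ (rfl : gX gate lines (.inr Λ) = some _)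
    (x := ⟨Sum.inl x.node, !x.pos⟩) ⟨x, hx, rfl⟩ h hv hM

private theorem mem_of_line (E : Ev (gX gate lines) B f s M V) {Λ : lines}
    (hΛ : (Sum.inr Λ : N ⊕ lines) ∈ B) {x : Lit N} (hx : x ∈ Λ.1) :
    (Sum.inl x.node : N ⊕ lines) ∈ B :=
  E.closed _ hΛ _ (rfl : gX gate lines (.inr Λ) = some _) ⟨Sum.inl x.node, !x.pos⟩ ⟨x, hx, rfl⟩

/-- a false line with a small certificate -/
private def FalseAt (V : Finset (P × H) → N ⊕ lines → Bool → Prop) (f : Finset (P × H)) (s : ℕ)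
    (Λ : lines) : Prop :=
  ∃ α, α.card ≤ f.card + s ∧ V α (Sum.inr Λ) true

private theorem falseAt_of (E : Ev (gX gate lines) B f s M V) {Λ : lines}
    (hΛ : (Sum.inr Λ : N ⊕ lines) ∈ B) {α : Finset (P × H)} (hα : PM α) (hf : f ⊆ α)
    (hM : α.card + 3 * s ≤ M)
    (h : ∀ x ∈ Λ.1, ∀ β, α ⊆ β → PM β → β.card ≤ α.card + 2 * s →
      ¬ V β (Sum.inl x.node) x.pos) : FalseAt V f s Λ := by
  obtain ⟨β, v, h1, h2, h3, h4⟩ := E.decide hΛ hα hf (by omega)
  rcases v with _ | _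
  · exfalso
    obtain ⟨y, hy, γ, h5, h6, h7, h8⟩ := E.and_false hΛ
      (rfl : gX gate lines (.inr Λ) = some _) h4 (by omega)
    obtain ⟨x, hx, rfl⟩ := hy
    simp only [Bool.not_not] at h8
    exact h x hx γ (h1.trans h5) h6 (by omega) h8
  · obtain ⟨γ, h5, h6, h7, h8⟩ := E.cert hΛ h4
    exact ⟨γ, h7, h8⟩

/-- **Soundness**: there is no refutation with an evaluation. -/
theorem Ev.false (E : Ev (gX gate lines) B f s M V)
    (hB : ∀ Λ : lines, (Sum.inr Λ : N ⊕ lines) ∈ B) {Base : Set (Lit N) → Prop}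
    {order : Set (Lit N) → ℕ}
    (hstep : ∀ Λ ∈ lines, AStep gate Base {Δ | Δ ∈ lines ∧ order Δ < order Λ} Λ)
    (hempty : ∅ ∈ lines)
    (hbase : ∀ L, Base L → ∀ α, PM α → f ⊆ α → α.card + s ≤ M →
      ∃ x ∈ L, ∃ β, α ⊆ β ∧ PM β ∧ β.card ≤ α.card + s ∧ V β (Sum.inl x.node) x.pos) :
    False := by
  have hroom := E.room
  -- members of false lines are false
  have mem_false : ∀ {Λ : lines} {α : Finset (P × H)}, V α (Sum.inr Λ) true →
      ∀ x ∈ Λ.1, ∀ β, α ⊆ β → PM β → β.card + s ≤ M →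
      ¬ V β (Sum.inl x.node) x.pos := by
    intro Λ α h x hx β h1 h2 h3 h4
    have h5 := line_true E (hB Λ) (E.mono (hB Λ) h h1 h2) hx h4 h3
    cases hp : x.pos <;> rw [hp] at h5 <;> simp at h5
  have decide_mem : ∀ {Λ : lines} {α : Finset (P × H)}, V α (Sum.inr Λ) true →
      ∀ x ∈ Λ.1, ∀ β, α ⊆ β → PM β → β.card + 2 * s ≤ M →
      ∃ γ, β ⊆ γ ∧ PM γ ∧ γ.card ≤ β.card + s ∧ V γ (Sum.inl x.node) (!x.pos) := by
    intro Λ α h x hx β h1 h2 h3
    have hf := (E.pm h).2
    obtain ⟨γ, v, h4, h5, h6, h7⟩ := E.decide (mem_of_line E (hB Λ) hx) h2 (hf.trans h1) (by omega)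
    refine ⟨γ, h4, h5, h6, ?_⟩
    have h8 := mem_false h x hx γ (h1.trans h4) h5 (by omega)
    by_cases h9 : v = x.pos
    · rw [h9] at h7; exact absurd h7 h8
    · have h10 : v = !x.pos := by
        cases v <;> cases hp : x.pos <;> simp_all
      rw [← h10]; exact h7
  -- no line is false
  have key : ∀ (m : ℕ) (Λ : lines), order Λ.1 ≤ m → ¬ FalseAt V f s Λ := by
    intro m
    induction m using Nat.strong_induction_on with
    | _ m ih =>
      rintro Λ hm ⟨α, hcard, hα⟩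
      obtain ⟨hpm, hf⟩ := E.pm hα
      have hle : ∀ Δ : lines, order Δ.1 < order Λ.1 → ¬ FalseAt V f s Δ :=
        fun Δ h => ih _ (lt_of_lt_of_le h hm) Δ le_rfl
      cases hstep Λ.1 Λ.2 with
      | @base L hL hsub =>
        obtain ⟨x, hx, β, h1, h2, h3, h4⟩ := hbase L hL α hpm hf (by omega)
        exact mem_false hα x (hsub hx) β h1 h2 (by omega) h4
      | @ident S a b hga hgb haΛ hbΛ =>
        obtain ⟨β, h1, h2, h3, h4⟩ := decide_mem hα _ haΛ α subset_rfl hpm (by omega)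
        obtain ⟨γ, h5, h6, h7, h8⟩ := decide_mem hα _ hbΛ β h1 h2 (by omega)
        exact E.ident (mem_of_line E (hB Λ) hbΛ) (mem_of_line E (hB Λ) haΛ) (gX_inl hgb)
          (gX_inl hga) h8 (E.mono (mem_of_line E (hB Λ) haΛ) h4 h5 h6) (by omega)
      | @weak Δ hΔ hsub =>
        refine hle ⟨Δ, hΔ.1⟩ hΔ.2 (falseAt_of E (hB _) hpm hf (by omega) ?_)
        intro x hx β h1 h2 h3
        exact mem_false hα x (hsub hx) β h1 h2 (by omega)
      | @cut a h1 h2 =>
        -- decide `a`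
        have haB : (Sum.inl a : N ⊕ lines) ∈ B :=
          mem_of_line E (hB ⟨_, h1.1⟩) (x := ⟨a, true⟩) (Set.mem_insert _ _)
        obtain ⟨β, v, h3, h4, h5, h6⟩ := E.decide haB hpm hf (by omega)
        rcases v with _ | _
        · refine hle ⟨_, h1.1⟩ h1.2 (falseAt_of E (hB _) h4 (hf.trans h3) (by omega) ?_)
          intro x hx γ h7 h8 h9 h10
          rcases hx with rfl | hx
          · exact E.cons h10 (E.mono haB h6 h7 h8)
          · exact mem_false hα x hx γ (h3.trans h7) h8 (by omega) h10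
        · refine hle ⟨_, h2.1⟩ h2.2 (falseAt_of E (hB _) h4 (hf.trans h3) (by omega) ?_)
          intro x hx γ h7 h8 h9 h10
          rcases hx with rfl | hx
          · exact E.cons (E.mono haB h6 h7 h8) h10
          · exact mem_false hα x hx γ (h3.trans h7) h8 (by omega) h10
      | @andI S a hg haΛ h =>
        obtain ⟨β, h1, h2, h3, h4⟩ := decide_mem hα _ haΛ α subset_rfl hpm (by omega)
        have haB := mem_of_line E (hB Λ) haΛ
        obtain ⟨y, hy, γ, h5, h6, h7, h8⟩ := E.and_false haB (gX_inl hg) h4 (by omega)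
        obtain ⟨x, hx, rfl⟩ := hy
        have hins := h x hx
        refine hle ⟨_, hins.1⟩ hins.2 (falseAt_of E (hB _) h6 (hf.trans (h1.trans h5))
          (by omega) ?_)
        intro z hz δ h9 h10 h11 h12
        have hxB : (Sum.inl x.node : N ⊕ lines) ∈ B :=
          mem_of_line E (hB ⟨_, hins.1⟩) (x := x) (Set.mem_insert _ _)
        rcases hz with rfl | hz
        · have h13 := E.mono hxB h8 h9 h10
          simp only [Lit.map] at h13
          cases hp : z.pos <;> rw [hp] at h12 h13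
          · exact E.cons h13 h12
          · exact E.cons h12 h13
        · exact mem_false hα z hz δ (h1.trans (h5.trans h9)) h10 (by omega) h12
      | @andE S a hg haΛ h =>
        obtain ⟨β, h1, h2, h3, h4⟩ := decide_mem hα _ haΛ α subset_rfl hpm (by omega)
        have haB := mem_of_line E (hB Λ) haΛ
        refine hle ⟨_, h.1⟩ h.2 (falseAt_of E (hB _) h2 (hf.trans h1) (by omega) ?_)
        intro z hz δ h5 h6 h7 h8
        rcases hz with hz | ⟨w, hw, rfl⟩
        · exact mem_false hα z hz δ (h1.trans h5) h6 (by omega) h8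
        · have h9 := E.and_true haB (gX_inl hg) (x := Lit.map Sum.inl w) ⟨w, hw, rfl⟩
            (E.mono haB h4 h5 h6) h8 (by omega)
          simp [Lit.neg, Lit.map] at h9
  -- the empty line is false
  refine key _ ⟨∅, hempty⟩ le_rfl (falseAt_of E (hB _) E.pmf subset_rfl (by omega) ?_)
  intro x hx
  exact absurd hx (Set.notMem_empty x)

end

/-- **The combinatorial half.** Nodes in `B0` have an evaluation by matchings in which the axioms are true:
then there is no short derivation of the empty line whose members are built in depth `d` from `B0`. -/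
theorem core {N : Type} [Finite N] (gate : N → Option (Set (Lit N))) (B0 : Set N) (d σ m t : ℕ)
    (hσ : 1 ≤ σ) (ht : 1 ≤ t) (hm : m < 2 ^ t) (hbig : (cc (d + 1) σ * t) ^ cc (d + 1) σ ≤ m)
    (R : Finset (Fin (m + 1) × Fin m) → N → Bool → Prop) (E : Ev gate B0 ∅ (σ * t) m R)
    (lines : Set (Set (Lit N))) (order : Set (Lit N) → ℕ) (Base : Set (Lit N) → Prop)
    (hN : Nat.card N + lines.ncard < 2 ^ t)
    (hstep : ∀ Λ ∈ lines, AStep gate Base {Δ | Δ ∈ lines ∧ order Δ < order Λ} Λ)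
    (hempty : ∅ ∈ lines) (hlines : ∀ Λ ∈ lines, ∀ x ∈ Λ, x.node ∈ BB gate B0 d)
    (hB0 : ∀ L, Base L → ∀ x ∈ L, x.node ∈ B0)
    (hbase : ∀ L, Base L → ∀ α, PM α → α.card + σ * t ≤ m →
      ∃ x ∈ L, ∃ β, α ⊆ β ∧ PM β ∧ β.card ≤ α.card + σ * t ∧ R β x.node x.pos) : False := by
  classical
  have hfin : Finite (Lit N) := by
    refine Finite.of_injective (β := N × Bool) (fun x => (x.node, x.pos)) ?_
    intro x y h
    obtain ⟨h1, h2⟩ := Prod.ext_iff.1 h
    exact Lit.ext h1 h2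
  have hcard : Nat.card (N ⊕ lines) < 2 ^ t := by
    rw [Nat.card_sum, Nat.card_coe_set_eq]
    exact hN
  obtain ⟨f', s', R', E', -, hs', hR'⟩ := climb (gX gate lines) (Sum.inl '' B0) (d + 1) σ hσ m t 0 m ∅
    (RX R) ht hm hcard (Ev.inl E) (by simp) hbig
  rw [Nat.zero_add] at E'
  refine Ev.false E' (fun Λ => BB_inr B0 d Λ (hlines Λ.1 Λ.2)) hstep hempty ?_
  intro L hL α h1 h2 h3
  obtain ⟨x, hx, β, h4, h5, h6, h7⟩ := hbase L hL α h1 (by omega)
  refine ⟨x, hx, β, h4, h5, by omega, ?_⟩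
  exact hR' _ ⟨x.node, hB0 L hL x hx, rfl⟩ β x.pos ⟨x.node, rfl, h7⟩ h5 (h2.trans h4)

end Pool.Agent.H63.AC
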